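import Pool.Agent.N436.DF.Stm3

/-! DF, third batch: the obstacle to the extension of a colouring (project of helper436). -/

set_option autoImplicit false

namespace Pool.Agent.N36.DF

open Finset Pool.Agent.N436.DF

/-- the demand at the pair `x z` for the colour `i` -/
def dm {V : Type} (H : Hub V) (f : V → Bool) (s : V → V → ℤ) (x z : V) (i : Bool) : ℤ :=
  if f x = i then (if H.r x z ≤ s x z then H.r x z else (if i = true then 2 else 4))
    else max 0 (H.m x z - s x z)

theorem dm_nn {V : Type} [DecidableEq V] {H : Hub V} (ok : Ok P13 H) (f : V → Bool)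
    (s : V → V → ℤ) (x z : V) (i : Bool) : 0 ≤ dm H f s x z i := by
  unfold dm
  have h := ok.r01 x z
  split_ifs
  · omega
  · norm_num
  · norm_num
  · exact le_max_left _ _

theorem dm_cost {V : Type} [DecidableEq V] {H : Hub V} (ok : Ok P13 H) (f : V → Bool)
    (s : V → V → ℤ) (hs : ∀ x z, 0 ≤ s x z) (x z : V) :
    5 * dm H f s x z true + 3 * dm H f s x z false =
      12 * H.r x z + 5 * H.m x z - sv H f s x z := by
  unfold dm sv
  have h := ok.r01 x z
  have h1 := hs x z
  have h2 : max 0 (H.m x z - s x z) = H.m x z - min (H.m x z) (s x z) := by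
    rcases le_total (H.m x z) (s x z) with h | h
    · rw [min_eq_left h, max_eq_left (by linarith)]; ring
    · rw [min_eq_right h, max_eq_right (by linarith)]
  rw [h2]
  by_cases hf : f x = true
  · by_cases hr : H.r x z ≤ s x z
    · simp [hf, hr]
      ring
    · have hr1 : H.r x z = 1 := by omega
      simp only [hf, if_neg hr, if_true, Bool.true_eq_false, if_false]
      rw [hr1]
      ring
  · have hf' : f x = false := by simpa using hf
    by_cases hr : H.r x z ≤ s x z
    · simp [hf', hr]
      ring
    · have hr1 : H.r x z = 1 := by omega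
      simp only [hf', if_neg hr, if_true, Bool.false_eq_true, if_false]
      rw [hr1]
      ring

theorem kill3 (hb : S3_base) (hr : S3_res) (hg : S3_glue) : S3_kill := by
  intro V _ H S X f p s mc hXS hXne hcol hs hcap
  have ok := mc.ok
  obtain ⟨dem, hdem⟩ : ∃ dem : Bool → V → ℤ, dem = fun i z => ∑ x ∈ X, dm H f s x z i := ⟨_, rfl⟩
  have hdnn : ∀ i x, 0 ≤ dem i x := by
    intro i z
    rw [hdem]
    exact Finset.sum_nonneg fun x _ => dm_nn ok f s x z i
  obtain ⟨ok', hpr, htr⟩ := hr V H dem ok hdnn
  have hncol : ¬ Col (res H dem) (S \ X) := by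
    rintro ⟨g, q, hgq⟩
    obtain ⟨hgq', hload⟩ := htr (S \ X) g q hgq
    have hserved : ∀ x ∈ X, ∀ z ∈ S \ X, f x = g z → H.r x z ≤ s x z := by
      intro x hx z hz hfg
      by_contra hcon
      obtain ⟨l1, l2⟩ := hload z hz
      have h1 : dm H f s x z (g z) ≤ dem (g z) z := by
        rw [hdem]
        exact Finset.single_le_sum (f := fun x => dm H f s x z (g z))
          (fun y _ => dm_nn ok f s y z (g z)) hx
      have h2 : dm H f s x z (g z) = if g z = true then 2 else 4 := by
        unfold dm
        rw [if_pos hfg, if_neg hcon]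
      rw [h2] at h1
      cases hgz : g z with
      | true =>
        rw [hgz] at h1 l1
        have h3 := ok.c1_le z
        have h4 : P13.j = 1 := rfl
        simp only [if_true] at h1
        omega
      | false =>
        rw [hgz] at h1 l1
        have h3 := ok.c2_le z
        have h4 : P13.k = 3 := rfl
        simp only [Bool.false_eq_true, if_false] at h1
        omega
    obtain ⟨F, P', hF, _⟩ := hg V H S X f g p q s
      (fun z x => if g z = f x then H.r x z else max 0 (H.m x z - s x z)) ok hXS hcol hgq' hs
      (by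
        intro z x
        show 0 ≤ if g z = f x then H.r x z else max 0 (H.m x z - s x z)
        have h := ok.r01 x z
        split_ifs
        · omega
        · exact le_max_left _ _)
      (by
        intro x hx z hz hfg
        refine ⟨hserved x hx z hz hfg, ?_⟩
        show H.r x z ≤ if g z = f x then H.r x z else max 0 (H.m x z - s x z)
        rw [if_pos hfg.symm])
      (by
        intro x hx z hz hfg
        show H.m x z ≤ s x z + if g z = f x then H.r x z else max 0 (H.m x z - s x z)
        rw [if_neg (fun h => hfg h.symm)]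
        have := le_max_right 0 (H.m x z - s x z)
        linarith)
      hcap
      (by
        intro z hz
        obtain ⟨l1, l2⟩ := hload z hz
        have h1 : ∑ x ∈ X, (if g z = f x then H.r x z else max 0 (H.m x z - s x z)) =
            dem (g z) z := by
          rw [hdem]
          refine Finset.sum_congr rfl fun x hx => ?_
          unfold dm
          by_cases hfg : f x = g z
          · rw [if_pos hfg.symm, if_pos hfg, if_pos (hserved x hx z hz hfg)]
          · rw [if_neg (fun h => hfg h.symm), if_neg hfg]
        show load H (S \ X) g q z + ∑ x ∈ X, (if g z = f x then H.r x z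
          else max 0 (H.m x z - s x z)) ≤ H.c (g z) z
        rw [h1]
        exact l1)
    exact mc.ncol ⟨F, P', hF⟩
  have hE : eE (res H dem) (S \ X) ≤ eE H S := by
    have hrn : ∀ u v, 0 ≤ H.r u v := fun u v => by have := ok.r01 u v; omega
    show ∑ u ∈ S \ X, ∑ v ∈ S \ X, H.r u v ≤ ∑ u ∈ S, ∑ v ∈ S, H.r u v
    calc ∑ u ∈ S \ X, ∑ v ∈ S \ X, H.r u v ≤ ∑ u ∈ S \ X, ∑ v ∈ S, H.r u v :=
          Finset.sum_le_sum fun u _ => Finset.sum_le_sum_of_subset_of_nonneg
            Finset.sdiff_subset (fun v _ _ => hrn u v)
      _ ≤ ∑ u ∈ S, ∑ v ∈ S, H.r u v :=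
          Finset.sum_le_sum_of_subset_of_nonneg Finset.sdiff_subset
            (fun u _ _ => Finset.sum_nonneg fun v _ => hrn u v)
  have hcard : (S \ X).card < S.card := by
    have h1 := Finset.card_sdiff_add_card_eq_card hXS
    have h2 := hXne.card_pos
    omega
  have hnh : ¬ Hyp P13 (res H dem) (S \ X) := fun h =>
    hncol (mc.ih2 (res H dem) (S \ X) ok' h hE hcard)
  unfold Hyp at hnh
  push Not at hnh
  obtain ⟨C, hC, hCne, hrho⟩ := hnh
  refine ⟨C, hC, hCne, ?_⟩
  obtain ⟨b1, _⟩ := hb V (res H dem) ok'
  obtain ⟨_, b2, _⟩ := hb V H ok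
  rw [b1 C] at hrho
  have hb3 : P13.b = 3 := rfl
  rw [hb3] at hrho
  have hdis : Disjoint X C := by
    rw [Finset.disjoint_left]
    intro x hx hxC
    exact (Finset.mem_sdiff.1 (hC hxC)).2 hx
  have e1 := b2 X C hdis
  have e2 := hpr C
  have e3 : cost dem C = 12 * rr H X C + 5 * mm H X C - ∑ x ∈ X, ∑ z ∈ C, sv H f s x z := by
    unfold cost rr mm
    rw [hdem]
    have h1 : ∀ z ∈ C, 5 * ∑ x ∈ X, dm H f s x z true + 3 * ∑ x ∈ X, dm H f s x z false =
        ∑ x ∈ X, (12 * H.r x z + 5 * H.m x z - sv H f s x z) := by
      intro z _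
      rw [Finset.mul_sum, Finset.mul_sum, ← Finset.sum_add_distrib]
      exact Finset.sum_congr rfl fun x _ => dm_cost ok f s hs x z
    rw [Finset.sum_congr rfl h1, Finset.sum_comm]
    simp only [Finset.sum_sub_distrib, Finset.sum_add_distrib, Finset.mul_sum]
  rw [e1]
  linarith

end Pool.Agent.N36.DF

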